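import Pool.Agent.Lib.helper21.RN

set_option autoImplicit false

namespace Pool.Agent.H.MP_b29b59_lc

open Set Pool.Agent.Lib.helper21.RN

abbrev X := Lex (ℚ →₀ ℚ)

def co (x : X) (j : ℚ) : ℚ := ofLex x j

theorem lt_iff {x y : X} : x < y ↔ ∃ i, (∀ j < i, co x j = co y j) ∧ co x i < co y i :=
  Finsupp.Lex.lt_iff

/-- change one coordinate -/
noncomputable def up (x : X) (i q : ℚ) : X := toLex ((ofLex x).update i q)

theorem up_self (x : X) (i q : ℚ) : co (up x i q) i = q := by simp [co, up]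

theorem up_ne (x : X) {i j : ℚ} (q : ℚ) (h : j < i) : co (up x i q) j = co x j := by
  simp [co, up, h.ne]

theorem ex_w {x y : X} (h : x ≠ y) : ∃ i, (∀ j < i, co x j = co y j) ∧ co x i ≠ co y i := by
  rcases h.lt_or_gt with h | h <;> obtain ⟨i, a, b⟩ := lt_iff.1 h
  exacts [⟨i, a, b.ne⟩, ⟨i, fun j hj => (a j hj).symm, b.ne'⟩]

open Classical in
noncomputable def w (x y : X) : ℚ := if h : x ≠ y then (ex_w h).choose else 0

theorem w_spec {x y : X} (h : x ≠ y) :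
    (∀ j < w x y, co x j = co y j) ∧ co x (w x y) ≠ co y (w x y) := by
  rw [w, dif_pos h]; exact (ex_w h).choose_spec

theorem le_w {x y : X} (h : x ≠ y) {i : ℚ} : i ≤ w x y ↔ ∀ j < i, co x j = co y j :=
  ⟨fun a j hj => (w_spec h).1 j (hj.trans_le a), fun a => not_lt.1 fun b => (w_spec h).2 (a _ b)⟩

theorem w_eq {x y : X} {i : ℚ} (a : ∀ j < i, co x j = co y j) (b : co x i ≠ co y i) :
    w x y = i := by
  have h : x ≠ y := fun e => b (e ▸ rfl)
  exact le_antisymm (not_lt.1 fun c => b ((w_spec h).1 i c)) ((le_w h).2 a)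

theorem lt_w {x y : X} {i : ℚ} (a : ∀ j < i, co x j = co y j) (b : co x i ≠ co y i) :
    x < y ↔ co x i < co y i := by
  refine ⟨fun h => ?_, fun h => lt_iff.2 ⟨i, a, h⟩⟩
  obtain ⟨k, c, d⟩ := lt_iff.1 h
  rwa [← w_eq a b, w_eq c d.ne]

theorem w_comm (x y : X) : w x y = w y x := by
  rcases eq_or_ne x y with rfl | h
  exacts [rfl, (w_eq (fun j hj => ((w_spec h).1 j hj).symm) (w_spec h).2.symm).symm]

instance : DenselyOrdered X := ⟨fun x y h => by
  obtain ⟨i, a, b⟩ := lt_iff.1 h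
  obtain ⟨q, c, d⟩ := exists_between b
  exact ⟨up x i q, lt_iff.2 ⟨i, fun j hj => (up_ne _ _ hj).symm, by rwa [up_self]⟩,
    lt_iff.2 ⟨i, fun j hj => (up_ne _ _ hj).trans (a j hj), by rwa [up_self]⟩⟩⟩

instance : NoMaxOrder X := ⟨fun x => ⟨up x 0 (co x 0 + 1),
  lt_iff.2 ⟨0, fun j hj => (up_ne _ _ hj).symm, by simp [up_self]⟩⟩⟩

instance : NoMinOrder X := ⟨fun x => ⟨up x 0 (co x 0 - 1),
  lt_iff.2 ⟨0, fun j hj => up_ne _ _ hj, by simp [up_self]⟩⟩⟩

instance : Countable X := inferInstanceAs (Countable (ℚ →₀ ℚ))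

noncomputable def ι : ℚ ≃o X := (Order.iso_of_countable_dense ℚ X).some

/-- The valuation, with values in the same ordered set. -/
noncomputable def v (x y : X) : X := ι (w x y)

theorem v_comm (x y : X) : v x y = v y x := congrArg ι (w_comm x y)

theorem v_ultra {x y z : X} (h1 : x ≠ y) (h2 : y ≠ z) (h3 : x ≠ z) :
    min (v x y) (v y z) ≤ v x z := by
  simp only [v, ← ι.monotone.map_min, ι.le_iff_le, le_w h3]
  exact fun j hj => ((w_spec h1).1 j (hj.trans_le (min_le_left _ _))).trans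
    ((w_spec h2).1 j (hj.trans_le (min_le_right _ _)))

theorem v_iso {x y z : X} (h1 : x ≠ y) (h2 : y ≠ z) (h : v x y < v y z) :
    v x z = v x y ∧ (x < z ↔ x < y) ∧ (z < x ↔ y < x) := by
  have h' : w x y < w y z := ι.lt_iff_lt.1 h
  have a := w_spec h1
  have b := (w_spec h2).1
  have c : ∀ j < w x y, co x j = co z j := fun j hj => (a.1 j hj).trans (b j (hj.trans h'))
  have d : co x (w x y) ≠ co z (w x y) := b _ h' ▸ a.2
  refine ⟨congrArg ι (w_eq c d), ?_, ?_⟩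
  · rw [lt_w c d, lt_w a.1 a.2, b _ h']
  · rw [lt_w (fun j hj => (c j hj).symm) d.symm, lt_w (fun j hj => (a.1 j hj).symm) a.2.symm,
      b _ h']

theorem v_mono {x y z : X} (h1 : x ≤ y) (h2 : y < z) : v x z ≤ v y z := not_lt.1 fun h => by
  have := (v_iso h2.ne (h1.trans_lt h2).ne' (h.trans_eq (v_comm _ _))).2.1
  exact h1.not_gt (this.2 h2)

theorem v_anti {x y z : X} (h1 : x < y) (h2 : y ≤ z) : v z x ≤ v y x := not_lt.1 fun h => by
  have := (v_iso h1.ne' (h1.trans_le h2).ne (h.trans_eq (v_comm _ _))).2.2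
  exact h2.not_gt (this.2 h1)

theorem v_btw {x y z a : X} (h : z ∈ uIcc x y) (s : x < a ∧ y < a ∨ a < x ∧ a < y) :
    v z a ∈ uIcc (v x a) (v y a) ∧ (z < a ↔ x < a) ∧ (a < z ↔ a < x) := by
  rcases s with ⟨s1, s2⟩ | ⟨s1, s2⟩
  · have : z < a := h.2.trans_lt (max_lt s1 s2)
    refine ⟨?_, by simp [*], by simp [this.not_gt, s1.not_gt]⟩
    rcases mem_uIcc.1 h with k | k
    exacts [mem_uIcc.2 (.inl ⟨v_mono k.1 this, v_mono k.2 s2⟩),
      mem_uIcc.2 (.inr ⟨v_mono k.1 this, v_mono k.2 s1⟩)]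
  · have : a < z := (lt_min s1 s2).trans_le h.1
    refine ⟨?_, by simp [this.not_gt, s1.not_gt], by simp [*]⟩
    rcases mem_uIcc.1 h with k | k
    exacts [mem_uIcc.2 (.inr ⟨v_anti this k.2, v_anti s1 k.1⟩),
      mem_uIcc.2 (.inl ⟨v_anti this k.2, v_anti s2 k.1⟩)]

theorem cnt (S : Finset X) : ∀ m, S.card ≤ m + 1 →
    ∃ T : Finset X, T.card ≤ m ∧ ∀ x ∈ S, ∀ y ∈ S, x ≠ y → v x y ∈ T := by
  induction S using Finset.induction_on_max with
  | empty => exact fun m _ => ⟨∅, by simp⟩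
  | insert a S ha ih =>
    intro m hm
    rw [Finset.card_insert_of_notMem fun h => (ha a h).false] at hm
    rcases S.eq_empty_or_nonempty with rfl | hS
    · exact ⟨∅, by simp⟩
    obtain ⟨m, rfl⟩ : ∃ k, m = k + 1 := ⟨m - 1, by have := hS.card_pos; omega⟩
    obtain ⟨T, h1, h2⟩ := ih m (by omega)
    have k : ∀ x ∈ S, v x a ∈ insert (v (S.max' hS) a) T := fun x hx => by
      have c := ha _ (S.max'_mem hS)
      rcases (v_mono (S.le_max' x hx) c).eq_or_lt with e | e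
      · simp [e]
      · have d : x ≠ S.max' hS := fun d => e.ne (d ▸ rfl)
        rw [← (v_iso (ha x hx).ne c.ne' (e.trans_eq (v_comm _ _))).1]
        exact Finset.mem_insert_of_mem (h2 _ hx _ (S.max'_mem hS) d)
    refine ⟨insert (v (S.max' hS) a) T, (Finset.card_insert_le _ _).trans (by omega),
      fun x hx y hy h => ?_⟩
    rcases Finset.mem_insert.1 hx with rfl | hx' <;> rcases Finset.mem_insert.1 hy with rfl | hy'
    exacts [absurd rfl h, v_comm y x ▸ k y hy', k x hx',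
      Finset.mem_insert_of_mem (h2 _ hx' _ hy' h)]

/-- `p` is a partial isometry over `g`. -/
def PI (g : X ≃o X) (p : Set (X × X)) : Prop :=
  ∀ a ∈ p, ∀ b ∈ p, (a.1 < b.1 ↔ a.2 < b.2) ∧ (a.1 ≠ b.1 → v a.2 b.2 = g (v a.1 b.1))

theorem PI.eq {g : X ≃o X} {p : Set (X × X)} (h : PI g p) {a b : X × X} (ha : a ∈ p)
    (hb : b ∈ p) : a.1 = b.1 ↔ a.2 = b.2 := by
  simp only [le_antisymm_iff, ← not_lt, (h a ha b hb).1, (h b hb a ha).1]

theorem PI.swap {g : X ≃o X} {p : Set (X × X)} (h : PI g p) : PI g.symm (Prod.swap '' p) := by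
  rintro _ ⟨a, ha, rfl⟩ _ ⟨b, hb, rfl⟩
  exact ⟨(h a ha b hb).1.symm, fun e => by
    simp [(h a ha b hb).2 (mt (h.eq ha hb).1 e)]⟩

theorem PI.forth {g : X ≃o X} {p : Set (X × X)} (h : PI g p) (hp : p.Finite) (x : X) :
    ∃ y, PI g (insert (x, y) p) := by
  suffices ∃ y, ∀ b ∈ p, (x < b.1 ↔ y < b.2) ∧ (b.1 < x ↔ b.2 < y) ∧
      (x ≠ b.1 → v y b.2 = g (v x b.1)) by
    obtain ⟨y, hy⟩ := this
    refine ⟨y, ?_⟩
    rintro a (rfl | ha) b (rfl | hb)
    exacts [by simp, ⟨(hy b hb).1, (hy b hb).2.2⟩, ⟨(hy a ha).2.1, fun e => by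
      rw [v_comm, (hy a ha).2.2 e.symm, v_comm]⟩, h a ha b hb]
  by_cases e : ∃ a ∈ p, a.1 = x
  · obtain ⟨a, ha, rfl⟩ := e
    exact ⟨a.2, fun b hb => ⟨(h a ha b hb).1, (h b hb a ha).1, (h a ha b hb).2⟩⟩
  push Not at e
  rcases p.eq_empty_or_nonempty with rfl | hn
  · simp
  obtain ⟨a, ha, hm⟩ := exists_max_image p (fun a => v x a.1) hp hn
  obtain ⟨d, hd⟩ := ι.surjective (g (v x a.1))
  have s : ∀ b ∈ p, v x b.1 = v x a.1 → (∀ j < w x a.1, co x j = co b.1 j) ∧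
      co x (w x a.1) ≠ co b.1 (w x a.1) := fun b hb k => ι.injective k ▸ w_spec (e b hb).symm
  have s2 : ∀ b ∈ p, ∀ c ∈ p, v x b.1 = v x a.1 → v x c.1 = v x a.1 →
      ∀ j < d, co b.2 j = co c.2 j := fun b hb c hc k l => by
    rcases eq_or_ne b.1 c.1 with t | t
    · simp [(h.eq hb hc).1 t]
    · rw [← le_w (mt (h.eq hb hc).2 t), ← ι.le_iff_le, hd]
      refine (g.monotone ?_).trans_eq ((h b hb c hc).2 t).symm
      simpa [v_comm b.1 x, k, l] using v_ultra (e b hb) (e c hc).symm t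
  obtain ⟨q, q1, q2⟩ := Order.exists_between_finsets
    (((hp.subset (sep_subset p fun b => v x b.1 = v x a.1 ∧ b.1 < x)).image
      fun b => co b.2 d).toFinset)
    (((hp.subset (sep_subset p fun b => v x b.1 = v x a.1 ∧ x < b.1)).image
      fun b => co b.2 d).toFinset) (by
      simp only [Finite.mem_toFinset]
      rintro _ ⟨b, ⟨hb, b1, b2⟩, rfl⟩ _ ⟨c, ⟨hc, c1, c2⟩, rfl⟩
      have t := b2.trans c2
      have t' := (h b hb c hc).1.1 t
      have : v b.1 c.1 = v x a.1 := le_antisymm ((v_mono b2.le c2).trans_eq c1) (by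
        simpa [v_comm b.1 x, b1, c1] using v_ultra b2.ne c2.ne t.ne)
      have u : w b.2 c.2 = d := ι.injective (by rw [hd, ← this, ← (h b hb c hc).2 t.ne]; rfl)
      exact (lt_w (s2 b hb c hc b1 c1) (u ▸ (w_spec t'.ne).2)).1 t')
  simp only [Finite.mem_toFinset, forall_mem_image, mem_setOf_eq, and_imp] at q1 q2
  have s3 : ∀ b ∈ p, v x b.1 = v x a.1 → (x < b.1 ↔ up a.2 d q < b.2) ∧
      (b.1 < x ↔ b.2 < up a.2 d q) ∧ v (up a.2 d q) b.2 = g (v x b.1) := fun b hb k => by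
    have t : ∀ j < d, co (up a.2 d q) j = co b.2 j := fun j hj =>
      (up_ne _ _ hj).trans (s2 a ha b hb rfl k j hj)
    rcases (e b hb).lt_or_gt with l | l
    · have l' := q1 hb k l
      have : b.2 < up a.2 d q := lt_iff.2 ⟨d, fun j hj => (t j hj).symm, by rwa [up_self]⟩
      exact ⟨iff_of_false l.not_gt this.not_gt, iff_of_true l this,
        by rw [k, ← hd, v, w_eq t (by rw [up_self]; exact l'.ne')]⟩
    · have l' := q2 hb k l
      have : up a.2 d q < b.2 := lt_iff.2 ⟨d, t, by rwa [up_self]⟩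
      exact ⟨iff_of_true l this, iff_of_false l.not_gt this.not_gt,
        by rw [k, ← hd, v, w_eq t (by rw [up_self]; exact l'.ne)]⟩
  refine ⟨up a.2 d q, fun b hb => ?_⟩
  rcases (hm b hb).eq_or_lt with k | k
  · exact ⟨(s3 b hb k).1, (s3 b hb k).2.1, fun _ => (s3 b hb k).2.2⟩
  · obtain ⟨t1, t2, t3⟩ := v_iso (e b hb) (e a ha).symm (v_comm _ _ ▸ k)
    have n : b.1 ≠ a.1 := fun n => k.ne (n ▸ rfl)
    have n2 : a.2 ≠ up a.2 d q := fun n2 => by
      obtain ⟨u1, u2, -⟩ := s3 a ha rfl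
      rw [← n2] at u1 u2
      exact (e a ha).lt_or_gt.elim (fun l => (u2.1 l).false) fun l => (u1.1 l).false
    obtain ⟨u1, u2, u3⟩ := v_iso (mt (h.eq hb ha).2 n) n2 (by
      rw [(h b hb a ha).2 n, t1, v_comm a.2, (s3 a ha rfl).2.2, v_comm b.1]
      exact g.strictMono k)
    exact ⟨by rw [u3, ← t3, (h a ha b hb).1], by rw [u2, ← t2, (h b hb a ha).1],
      fun _ => by rw [v_comm, u1, (h b hb a ha).2 n, t1, v_comm]⟩

theorem PI.ext {g : X ≃o X} {p : Set (X × X)} (h : PI g p) (hp : p.Finite) :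
    ∃ f : X ≃o X, (∀ a ∈ p, f a.1 = a.2) ∧ ∀ x y, x ≠ y → v (f x) (f y) = g (v x y) := by
  obtain ⟨R, r0, r1, r2, r3⟩ := baf (fun p => p.Finite ∧ PI g p) p ⟨hp, h⟩
    (fun p h x => (h.2.forth h.1 x).imp fun y k => ⟨h.1.insert _, k⟩) fun p h y =>
      (h.2.swap.forth (h.1.image _) y).imp fun x k => ⟨h.1.insert _, by
        simpa [image_insert_eq, image_image] using k.swap⟩
  have r : PI g R := fun a ha b hb => by
    obtain ⟨p, k, l⟩ := r3 {a, b} (toFinite _) (pair_subset ha hb)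
    exact k.2 a (l (by simp)) b (l (by simp))
  choose f hf using r1
  have m : StrictMono f := fun x y k => (r _ (hf x) _ (hf y)).1.1 k
  exact ⟨m.orderIsoOfSurjective f fun y => (r2 y).imp fun x (k : (x, y) ∈ R) =>
    (r.eq (hf x) k).1 rfl,
    fun a ha => (r.eq (hf a.1) (r0 ha)).1 rfl, fun x y k => (r _ (hf x) _ (hf y)).2 k⟩

end Pool.Agent.H.MP_b29b59_lc
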