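import Pool.Agent.H.MP_b29b59_lc.A

set_option autoImplicit false

namespace Pool.Agent.H.MP_b29b59_lc

open Set

/-- Bottom levels of towers of automorphisms compatible with the valuation. -/
def G (g : X ≃o X) : Prop :=
  ∃ t : ℕ → X ≃o X, t 0 = g ∧ ∀ n x y, x ≠ y → v (t n x) (t n y) = t (n + 1) (v x y)

theorem G.one : G 1 := ⟨fun _ => 1, rfl, fun _ _ _ _ => rfl⟩

theorem G.mul {g h : X ≃o X} (a : G g) (b : G h) : G (g * h) := by
  obtain ⟨s, rfl, a⟩ := a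
  obtain ⟨t, rfl, b⟩ := b
  exact ⟨fun n => s n * t n, rfl, fun n x y k => by
    simp only [RelIso.mul_apply]; rw [a n _ _ ((t n).injective.ne k), b n _ _ k]⟩

theorem G.inv {g : X ≃o X} (a : G g) : G g⁻¹ := by
  obtain ⟨s, rfl, a⟩ := a
  exact ⟨fun n => (s n)⁻¹, rfl, fun n x y k => (s (n + 1)).injective (by
    rw [← a n _ _ ((s n)⁻¹.injective.ne k)]; simp)⟩

theorem G.down {g : X ≃o X} (a : G g) : ∃ h, G h ∧ ∀ x y, x ≠ y → v (g x) (g y) = h (v x y) := by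
  obtain ⟨s, rfl, a⟩ := a
  exact ⟨s 1, ⟨fun n => s (n + 1), rfl, fun n => a (n + 1)⟩, a 0⟩

theorem G.up {α : Type} [Finite α] {h : X ≃o X} (a : G h) (x y : α → X)
    (h1 : ∀ i j, x i < x j ↔ y i < y j)
    (h2 : ∀ i j, x i ≠ x j → v (y i) (y j) = h (v (x i) (x j))) :
    ∃ g, G g ∧ ∀ i, g (x i) = y i := by
  obtain ⟨f, f1, f2⟩ := PI.ext (g := h) (p := range fun i => (x i, y i))
    (by rintro _ ⟨i, rfl⟩ _ ⟨j, rfl⟩; exact ⟨h1 i j, h2 i j⟩) (finite_range _)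
  obtain ⟨s, rfl, a⟩ := a
  refine ⟨f, ⟨fun n => Nat.casesOn n f s, rfl, ?_⟩, fun i => f1 _ ⟨i, rfl⟩⟩
  rintro (_ | n)
  exacts [f2, a n]

def Sm {α : Type} (m : ℕ) (x : α → X) : Prop := ∃ S : Finset X, S.card ≤ m ∧ ∀ i, x i ∈ S

theorem Sm.down {α β : Type} {m : ℕ} {x : α → X} (h : Sm (m + 1) x) (s t : β → α)
    (k : ∀ j, x (s j) ≠ x (t j)) : Sm m fun j => v (x (s j)) (x (t j)) := by
  obtain ⟨S, h1, h2⟩ := h
  obtain ⟨T, h3, h4⟩ := cnt S m h1
  exact ⟨T, h3, fun j => h4 _ (h2 _) _ (h2 _) (k j)⟩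

theorem sm_card {α : Type} [Finite α] (x : α → X) : Sm (Nat.card α) x := by
  classical
  have := Fintype.ofFinite α
  exact ⟨Finset.univ.image x, Finset.card_image_le.trans (by simp), by simp⟩

theorem oligo0 (m : ℕ) : ∀ (α : Type) [Finite α], ∃ (κ : Type) (_ : Finite κ) (c : (α → X) → κ),
    ∀ x y, Sm m x → Sm m y → c x = c y → ∃ g, G g ∧ ∀ i, g (x i) = y i := by
  induction m with
  | zero =>
    refine fun α _ => ⟨Unit, inferInstance, fun _ => (), fun x y ⟨S, h, k⟩ _ _ =>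
      ⟨1, .one, fun i => ?_⟩⟩
    simpa [Finset.card_eq_zero.1 (Nat.le_zero.1 h)] using k i
  | succ m ih =>
    intro α _
    choose κ hκ c hc using fun r : α → α → Prop => ih {p : α × α // r p.1 p.2}
    refine ⟨(α → α → Prop) × ∀ r, κ r, inferInstance, fun x => (fun i j => x i < x j,
      fun r => c r fun p => v (x p.1.1) (x p.1.2)), fun x y hx hy h => ?_⟩
    have h1 : ∀ i j, x i < x j ↔ y i < y j := fun i j =>
      iff_of_eq (congrFun₂ (congrArg Prod.fst h) i j)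
    obtain ⟨g, hg, k⟩ := hc (fun i j => x i < x j) _ _
      (hx.down (fun p => p.1.1) (fun p => p.1.2) fun p => p.2.ne)
      (hy.down (fun p => p.1.1) (fun p => p.1.2) fun p => ((h1 _ _).1 p.2).ne)
      (congrFun (congrArg Prod.snd h) _)
    refine hg.up x y h1 fun i j l => ?_
    rcases l.lt_or_gt with l | l
    exacts [(k ⟨(i, j), l⟩).symm, by rw [v_comm, v_comm (x i)]; exact (k ⟨(j, i), l⟩).symm]

theorem oligo (α : Type) [Finite α] : ∃ (κ : Type) (_ : Finite κ) (c : (α → X) → κ),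
    ∀ x y, c x = c y → ∃ g, G g ∧ ∀ i, g (x i) = y i := by
  obtain ⟨κ, _, c, h⟩ := oligo0 (Nat.card α) α
  exact ⟨κ, ‹_›, c, fun x y => h x y (sm_card x) (sm_card y)⟩

theorem conv0 (m : ℕ) : ∀ (α : Type) [Finite α] (a : α → X), Sm m a → ∀ g, G g →
    (∀ i, g (a i) = a i) → ∀ x, ∀ z ∈ uIcc x (g x),
      ∃ h, G h ∧ (∀ i, h (a i) = a i) ∧ h x = z := by
  have emp : ∀ (α : Type) [IsEmpty α] (a : α → X) (x z : X),
      ∃ h, G h ∧ (∀ i, h (a i) = a i) ∧ h x = z := fun α _ a x z => by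
    obtain ⟨h, h1, h2⟩ := G.one.up (fun _ : Unit => x) (fun _ => z) (by simp) (by simp)
    exact ⟨h, h1, isEmptyElim, h2 ()⟩
  induction m with
  | zero =>
    rintro α _ a ⟨S, h, k⟩ g _ _ x z _
    have : IsEmpty α := ⟨fun i => by
      simpa [Finset.card_eq_zero.1 (Nat.le_zero.1 h)] using k i⟩
    exact emp α a x z
  | succ m ih =>
    intro α _ a ha g hg h x z hz
    rcases isEmpty_or_nonempty α with _ | _
    · exact emp α a x z
    by_cases e : ∃ i, x = a i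
    · obtain ⟨i, rfl⟩ := e
      exact ⟨1, .one, fun _ => rfl, by simpa [h, eq_comm] using hz⟩
    push Not at e
    obtain ⟨i0, hm⟩ := Finite.exists_max fun i => v x (a i)
    obtain ⟨g1, k1, k2⟩ := hg.down
    have b : ∀ i, v z (a i) ∈ uIcc (v x (a i)) (g1 (v x (a i))) ∧ (z < a i ↔ x < a i) ∧
        (a i < z ↔ a i < x) := fun i => by
      rw [← k2 _ _ (e i), h]
      exact v_btw hz ((e i).lt_or_gt.imp (fun l => ⟨l, h i ▸ g.strictMono l⟩)
        fun l => ⟨l, h i ▸ g.strictMono l⟩)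
    have f1 : ∀ i j, a i ≠ a j → g1 (v (a i) (a j)) = v (a i) (a j) := fun i j l => by
      rw [← k2 _ _ l, h, h]
    obtain ⟨g2, l1, l2, l3⟩ := ih {p : α × α // a p.1 ≠ a p.2} _
      (ha.down (fun p => p.1.1) (fun p => p.1.2) fun p => p.2) g1 k1
      (fun p => f1 _ _ p.2) _ _ (b i0).1
    have ez : ∀ i, z ≠ a i := fun i l => (e i).lt_or_gt.elim
      (fun t => ((b i).2.1.2 t).ne l) fun t => ((b i).2.2.2 t).ne' l
    have key : ∀ i, v z (a i) = g2 (v x (a i)) := fun i => by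
      rcases eq_or_ne (a i0) (a i) with t | t
      · rw [← t, l3]
      have mn : ∀ y, (∀ i, y ≠ a i) → v y (a i0) ≠ v (a i0) (a i) →
          v y (a i) = min (v y (a i0)) (v (a i0) (a i)) := fun y hy u => by
        rcases u.lt_or_gt with u | u
        · rw [(v_iso (hy i0) t u).1, min_eq_left u.le]
        · rw [min_eq_right u.le, v_comm y, v_comm (a i0)]
          exact (v_iso t.symm (hy i0).symm (by rwa [v_comm, v_comm _ y])).1
      have f2 : g2 (v (a i0) (a i)) = v (a i0) (a i) := l2 ⟨(i0, i), t⟩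
      rcases eq_or_ne (v x (a i0)) (v (a i0) (a i)) with u | u
      · have : v x (a i) = v (a i0) (a i) := le_antisymm ((hm i).trans_eq u)
          (by simpa [u] using v_ultra (e i0) t (e i))
        simpa [this, f1 _ _ t, f2] using (b i).1
      · rw [mn x e u, mn z ez (by rw [← l3, ← f2]; exact g2.injective.ne u),
          g2.monotone.map_min, l3, f2]
    obtain ⟨g3, m1, m2⟩ := l1.up (fun o : Option α => o.elim x a) (fun o => o.elim z a)
      (by rintro (_ | i) (_ | j) <;> simp [(b _).2.1, (b _).2.2])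
      (by
        rintro (_ | i) (_ | j) l
        exacts [absurd rfl l, key j, (v_comm _ _).trans ((key i).trans (congrArg _ (v_comm _ _))),
          (l2 ⟨(i, j), l⟩).symm])
    exact ⟨g3, m1, fun i => m2 (some i), m2 none⟩

theorem far (S : Finset X) : ∃ c, (∀ x ∈ S, x < c) ∧ ∀ x ∈ S, ∀ y ∈ S, v x c = v y c := by
  obtain ⟨d, hd⟩ := (S.biUnion fun x => (ofLex x).support).bddBelow
  have e : ∀ x ∈ S, ∀ j < d, co x j = 0 := fun x hx j hj => by
    by_contra h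
    exact hj.not_ge (hd (by simpa using ⟨x, hx, h⟩))
  have e1 : ∀ x ∈ S, ∀ j < d - 1, co x j = co (up 0 (d - 1) 1) j := fun x hx j hj => by
    rw [up_ne _ _ hj, e x hx j (by linarith)]; rfl
  have e2 : ∀ x ∈ S, co x (d - 1) < co (up 0 (d - 1) 1) (d - 1) := fun x hx => by
    rw [up_self, e x hx _ (by linarith)]; exact one_pos
  exact ⟨up 0 (d - 1) 1, fun x hx => lt_iff.2 ⟨_, e1 x hx, e2 x hx⟩, fun x hx y hy => by
    rw [v, v, w_eq (e1 x hx) (e2 x hx).ne, w_eq (e1 y hy) (e2 y hy).ne]⟩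

theorem exists_cut : ∃ (U : Set X) (ψ : ℕ → X → X), IsLowerSet U ∧ U.Nonempty ∧ ψ 0 = id ∧
    (∀ x y, ∃ n, ψ n x = ψ n y) ∧ (∀ n, MonotoneOn (ψ n) U) ∧
    (∀ n x y, ψ n x = ψ n y → ψ (n + 1) x = ψ (n + 1) y) ∧
    (∀ n, ∀ a ∈ U, ∃ u ∈ U, ψ n a < ψ n u) ∧
    ∀ n, ∀ a ∈ U, ∀ u ∈ U, ψ (n + 1) a < ψ (n + 1) u → ψ (n + 1) a = v (ψ n a) (ψ n u) := by
  choose F F1 F2 using far
  obtain ⟨e, he⟩ := exists_surjective_nat X
  let ψ : ℕ → X → X := fun n => Nat.rec id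
    (fun n f x => v (f x) (F ((Finset.range (n + 1)).image (f ∘ e)))) n
  let c : ℕ → X := fun n => F ((Finset.range (n + 1)).image (ψ n ∘ e))
  have s : ∀ n x, ψ (n + 1) x = v (ψ n x) (c n) := fun _ _ => rfl
  have mo : ∀ x y, x ≤ y → (∀ n, ψ n y < c n) → ∀ n, ψ n x ≤ ψ n y := fun x y h k n => by
    induction n with
    | zero => exact h
    | succ n ih => exact v_mono ih (k n)
  have mg : ∀ m x y, ψ m x = ψ m y → ∀ n, m ≤ n → ψ n x = ψ n y := fun m x y h n k => by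
    induction k with
    | refl => exact h
    | step _ ih => rw [s, s, ih]
  have sj : ∀ n t, ∃ a, ψ n a = t ∧ ∀ k < n, ψ k a < c k := fun n => by
    induction n with
    | zero => exact fun t => ⟨t, rfl, by simp⟩
    | succ n ih =>
      intro t
      obtain ⟨d, rfl⟩ := ι.surjective t
      have b : co (up (c n) d (co (c n) d - 1)) d < co (c n) d := by simp [up_self]
      obtain ⟨a, a1, a2⟩ := ih (up (c n) d (co (c n) d - 1))
      refine ⟨a, by rw [s, a1, v, w_eq (fun j hj => up_ne _ _ hj) b.ne], fun k hk => ?_⟩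
      rcases (Nat.lt_succ_iff.1 hk).eq_or_lt with rfl | hk
      exacts [a1 ▸ lt_iff.2 ⟨d, fun j hj => up_ne _ _ hj, b⟩, a2 k hk]
  refine ⟨{x | ∀ n, ψ n x < c n}, ψ, fun y x h k n => (mo x y h k n).trans_lt (k n),
    ⟨e 0, fun n => F1 _ _ (Finset.mem_image_of_mem _ (by simp))⟩, rfl, fun x y => ?_,
    fun n x _ y hy h => mo x y h hy n, fun n x y h => by rw [s, s, h], fun n a ha => ?_,
    fun n a ha u hu h => ?_⟩
  · obtain ⟨i, rfl⟩ := he x
    obtain ⟨j, rfl⟩ := he y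
    exact ⟨max i j + 1, F2 _ _ (Finset.mem_image_of_mem (ψ _ ∘ e) (a := i) (by simp)) _
      (Finset.mem_image_of_mem (ψ _ ∘ e) (a := j) (by simp))⟩
  · obtain ⟨d, d1, d2⟩ := lt_iff.1 (ha n)
    obtain ⟨q, q1, q2⟩ := exists_between d2
    obtain ⟨u, u1, u2⟩ := sj n (up (ψ n a) d q)
    have t : ∀ j < d, co (up (ψ n a) d q) j = co (c n) j := fun j hj =>
      (up_ne _ _ hj).trans (d1 j hj)
    refine ⟨u, fun k => ?_, u1 ▸ lt_iff.2 ⟨d, fun j hj => (up_ne _ _ hj).symm, by rwa [up_self]⟩⟩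
    rcases lt_trichotomy k n with hk | rfl | hk
    · exact u2 k hk
    · exact u1 ▸ lt_iff.2 ⟨d, t, by rwa [up_self]⟩
    · rw [mg (n + 1) u a (by
        rw [s, s, u1, v, v, w_eq d1 d2.ne, w_eq t (by rw [up_self]; exact q2.ne)]) k hk]
      exact ha k
  · exact (v_iso (ha n).ne (hu n).ne' (h.trans_eq (v_comm _ _))).1.symm

end Pool.Agent.H.MP_b29b59_lc
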